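import Pool.Agent.U569.APL.MonoT
import Pool.Agent.Results.MP_45e720_ag.AlmostAllMonomials

/-!
# Entire curves and complex tori for the tuples of monomials near almost all members of families formed from arbitrary sets

Let `I 1, …, I s` be nonempty sets of variables among `x_0, …, x_n`, and `r = ∑ (|I i| - 1)` (`fdim I`). The tuples of monomials
`a 1, …, a s` of degree `d`, `a i` in the variables from `I i`, are given by `r + 1` coordinates: the degree `d`, and the exponents in
`a i` of all the variables from `I i` but one. The starting result `AlmostAllMonomials` says that the proportion of the tuples of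
degree `d` with the property `Good` below tends to `1` for `d → ∞`. Here: for all `ε > 0`, all large moduli `q` and all families of
vectors of `r + 1` residues modulo `q` with small Fourier coefficients (only finitely many of them need to be small,
`SmallCoefficients L η`, where `L` and `η` depend on `ε` and on the `I i` only), and for all but at most `ε |S|` members
`v = c + y` of the family `S`, the property `Good` holds for ALL tuples of monomials of all degrees whose coordinates are at a
distance of at most `κ |v 0|` from those of `v` (`v 0` stands for the degree), where `κ > 0` depends on `ε` and on the `I i` only: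
a cube of positive relative size around the member (`NearMost`).

Examples (`FlatExamples`), with Fourier coefficients at most `P ^ (-δ / 8)` modulo a large prime `P`: the values of bilinear maps on
ARBITRARY sets, all products of elements of two ARBITRARY sets in the field of `P ^ (r + 1)` elements, both plus arbitrary functions
of the one and of the other element, polynomials on products of ARBITRARY sets, polynomials on subgroups.

`Good`: the Zariski closures of the unions of the entire curves and of the images of the complex tori coincide for all the projective
varieties given by linear combinations of the monomials and of the `x_j ^ d`, with the combinatorial criterion of the starting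
file.

Proof: the tuples are good if certain determinants, which are affine in each of the free exponents, are not small. The number of
the points of a grid where these functions are small is bounded in `Pool/Agent/U449/BV/PW.lean` (helper449), and each small cube
contains few members of the family (`Pool/Agent/U569/APL/Box.lean`, `Mono.lean`, `MonoT.lean`).
-/

set_option autoImplicit false

namespace Pool.Agent.Results.MP_45e720_ag.ArbitrarySets

open MvPolynomial Pool.Agent.W602.GT Pool.Agent.R869.Wd Pool.Agent.H159R3.GGLLog
open Pool.Agent.W603.CX (OrbitsConstant)
open Pool.Agent.Y190.PH (Brody)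
open Pool.Agent.TH182.TC (TorusRigid EllipticRigid)
open Pool.Agent.Results.MP_45e720_ag.AlmostAllMonomials
open Pool.Agent.U569.APL (NearMost FlatExamples nearMost_typI flatExamples)

/-- The property of the starting result: `ToriSuffice` for all projective varieties `X` given by `m` linear combinations of the
monomials `a i` and of the `x_j ^ d`, and if the coefficient vectors are in general position, then all entire curves in `X` lie in the
union of the coordinate subspaces given by the sets on which the `I i` are not well spread; for hypersurfaces, `LooseCriterion`. -/
def Good {n s : ℕ} (I : Fin s → Finset (Fin (n + 1))) (d : ℕ) (a : Fin s → (Fin (n + 1) →₀ ℕ)) : Prop :=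
  (∀ (m : ℕ) (F : Fin m → MvPolynomial (Fin (n + 1)) ℂ),
    (∀ e, (F e).support ⊆ withPowers d a) → ToriSuffice F ∧
      (GenCoeffs F (withPowers d a) → ∀ x ∈ SpH ∅ F, ∃ J : Finset (Fin (n + 1)),
        ¬ Spread I m J ∧ ∀ j, x j ≠ 0 → j ∈ J)) ∧
  ∀ F : MvPolynomial (Fin (n + 1)) ℂ, F.support ⊆ withPowers d a → LooseCriterion F

theorem good_of_typ {n s : ℕ} {I : Fin s → Finset (Fin (n + 1))} {d : ℕ} {a : Fin s → (Fin (n + 1) →₀ ℕ)}
    (hty : TypI I d a) : Good I d a := by
  classical
  obtain ⟨A, hA⟩ := hty.bound
  obtain ⟨s', N, hg⟩ := hty.good
  have hts : ∀ (m : ℕ) (F : Fin m → MvPolynomial (Fin (n + 1)) ℂ),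
      (∀ e, (F e).support ⊆ withPowers d a) → ToriSuffice F := fun m F hFT =>
    toriSuffice_of (hg.sys hFT ∅) (hA ℂ m F ∅ hFT).1
  refine ⟨fun m F hFT => ⟨hts m F hFT, fun hgc x hx => ?_⟩, fun F hF => ⟨?_, fun J => ?_,
    fun x hx => ?_⟩⟩
  · obtain ⟨J, h1, -, h2⟩ := hty.special hFT hgc hx
    exact ⟨J, h1, h2⟩
  · have h1 : TorusRigid (fun _ : Fin 1 => F) ↔ Brody (fun _ : Fin 1 => F) :=
      (hts 1 _ fun _ => hF).2.out 0 2
    rw [h1, ← Pool.Agent.R869.Wd.brody_iff, hty.spH_empty hF]
    exact ⟨fun h J => h J fun j hj => absurd hj (Set.notMem_empty j), fun h J _ => h J⟩
  · exact (hty.crit hF J).out 0 3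
  · obtain ⟨J, h1, -, h2⟩ := hty.special1 hF hx
    exact ⟨J, h1, h2⟩

/-- **Theorem.** For all sets `I i` of variables the property `Good` holds for ALL tuples of monomials near almost all members of
the families with small Fourier coefficients (`NearMost`); for all `R`, families of vectors of `R` residues with Fourier
coefficients at most `q ^ (-κ)` have this property for all large `q`, and the families formed from arbitrary sets are such
families (`FlatExamples`). -/
theorem result : (∀ (n s : ℕ) (I : Fin s → Finset (Fin (n + 1))), NearMost I (Good I)) ∧ ∀ R : ℕ, FlatExamples R :=
  ⟨fun _ _ _ => nearMost_typI fun _ _ h => good_of_typ h, flatExamples⟩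

end Pool.Agent.Results.MP_45e720_ag.ArbitrarySets
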