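import Mathlib
import Pool.Agent.U647.IS.Tor

/-!
# Maps from complex tori and hyperbolicity for irregular surfaces of general type

Let `X = {F = 0}` be a smooth projective surface of general type over the complex numbers which has
a nonconstant holomorphic map to a complex torus of any dimension (`TorusMap`; we assume that the
fibres of the map are not Zariski dense, by Chow's theorem this is true for all nonconstant maps),
or regular symmetric differentials without a common direction, or a regular symmetric differential
of the form `h da₁ ⋯ da_d`.

Then the following are equivalent:

* `X` is Kobayashi hyperbolic,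
* every holomorphic map from the complex plane to `X` is constant,
* every holomorphic map from a complex torus of any dimension to `X` is constant,
* every holomorphic map from a complex torus of dimension one to `X` is constant,
* all subvarieties of `X` are of general type,

and if they are satisfied then the Kobayashi distance is bounded below by a multiple of a projective
distance, and all holomorphic maps from the punctured disc to `X` extend to the disc.

No positivity of the canonical bundle is assumed besides that it is big, and nothing about the
fibres. `MP_45e720_ag.FibredOverTori` has ample canonical bundle and hyperbolic fibres as hypotheses,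
`MP_c6ff8d_ag.SurfacesOverEllipticCurves` and `MP_2a5ae2_ag.SymmetricDifferentials` (helper155) that
all subvarieties are of general type (and a map to an elliptic curve).

The proof. The new step is `Pool.Agent.U647.IS.exists_twoForms`: by Kodaira's lemma and the regularity
of pluricanonical forms on the complex manifold `X` there is a holomorphic section of a power of the
canonical bundle twisted by `O(-1)`, its zeros are contained in an algebraic curve. So the theorem
`brody_geoS` of `Pool.Agent.N154.TB` (helper154) on Brody curves over complex tori applies: a Brody
curve in `X` is an elliptic curve, or there is one in a fibre or in the zeros of the section, which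
is a curve of genus at most one. Curves of genus at least two are of general type, those of genus at
most one are images of complex tori.
-/

set_option autoImplicit false

namespace Pool.Agent.Results.MP_45e720_ag.IrregularSurfaces

open MvPolynomial Pool.Agent.U647.IS
open Pool.Agent.W602.GT (IsForm Cone GeneralType)
open Pool.Agent.N155 (SmoothSurface AllSubGeneral)
open Pool.Agent.N154.TB (BrodyHyp)
open Pool.Agent.N154.GG (kobayashi projDist PunctIn Extends)
open Pool.Agent.TH182.TC (EllipticRigid TorusRigid)
open scoped LinearAlgebra.Projectivization

variable {n : ℕ} {ι : Type}

/-- The Kobayashi pseudodistance of the projective set with the cone `X` is a distance. -/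
def KobayashiHyperbolic (X : Set (Fin (n + 1) → ℂ)) : Prop :=
  ∀ p q : ℙ ℂ (Fin (n + 1) → ℂ), p.rep ∈ X → q.rep ∈ X → p ≠ q → 0 < kobayashi X p q

/-- **Maps from complex tori and hyperbolicity for irregular surfaces of general type** -/
theorem result (F : ι → MvPolynomial (Fin (n + 1)) ℂ) {K : Type} [Field K] [Algebra ℂ K]
    (y : Fin (n + 1) → K) (hX : SmoothSurface F y) (hgt : GeneralType ℂ K 2)
    (hD : TorusMap F y ∨ NoDirection K ∨ ProductDifferential K) :
    [KobayashiHyperbolic (Cone F), BrodyHyp (Cone F), TorusRigid F, EllipticRigid F,
      AllSubGeneral F].TFAE ∧
    (EllipticRigid F →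
      (∃ c : ℝ, 0 < c ∧ ∀ p q : ℙ ℂ (Fin (n + 1) → ℂ), p.rep ∈ Cone F → q.rep ∈ Cone F →
        ENNReal.ofReal (c * min 1 (projDist p q)) ≤ kobayashi (Cone F) p q) ∧
      ∀ f, PunctIn F f → Extends F f) := by
  have hD' : TorusMap F y ∨ EllipticMap K ∨ NoDirection K ∨ ProductDifferential K := by
    rcases hD with h | h | h
    · exact Or.inl h
    · exact Or.inr (Or.inr (Or.inl h))
    · exact Or.inr (Or.inr (Or.inr h))
  have h12 : KobayashiHyperbolic (Cone F) → BrodyHyp (Cone F) := brody_of_kob
  have h21 : BrodyHyp (Cone F) → KobayashiHyperbolic (Cone F) :=
    fun hB p q hp hq hpq => kob_of_brody hX.form hB hp hq hpq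
  have h23 : BrodyHyp (Cone F) → TorusRigid F := torusRigid_of_brody
  have h34 : TorusRigid F → EllipticRigid F := fun h => h.elliptic
  have h45 : EllipticRigid F → AllSubGeneral F := allSub_of_torus hX hgt
  have h52 : AllSubGeneral F → BrodyHyp (Cone F) := fun h => brody_of_all hX h hD'
  refine ⟨?_, fun h => ?_⟩
  · tfae_have 1 → 2 := h12
    tfae_have 2 → 1 := h21
    tfae_have 2 → 3 := h23
    tfae_have 3 → 4 := h34
    tfae_have 4 → 5 := h45
    tfae_have 5 → 2 := h52
    tfae_finish
  · exact geo_of_brody hX.form (h52 (h45 h))

end Pool.Agent.Results.MP_45e720_ag.IrregularSurfaces
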