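import Pool.Agent.U449.BV.TYP
import Pool.Agent.Results.MP_45e720_ag.AlmostAllMonomials

/-!
# Entire curves and complex tori for all but few tuples of monomials: a power saving, and mixed polynomials on arbitrary sets

Let `I 1, …, I s` be nonempty sets of variables among `x_0, …, x_n`, and `r = ∑ (|I i| - 1)` (`fdim I`). We consider the tuples of
monomials `a 1, …, a s` of degree `d`, `a i` in the variables from `I i`; there are about `c d ^ r` of them. The starting result
`AlmostAllMonomials` says that the proportion of those with the property `Good` below tends to `1` for `d → ∞`. Here: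

(1) `Good` fails for at most `C d ^ (r - 2 ^ (-r))` of the tuples, for all `d ≥ 1` (`PowerSaving`).

(2) Let `k = r + 1 ≥ 2`, and let the tuples `(d, a)` of all degrees be given by their `k` coordinates: the degree `d`, and the
exponents in `a i` of all the variables from `I i` but one. Let `0 ≤ κ`, `k - 2 ^ (-r) + k κ < δ ≤ k`, let `p` be a large prime, `f(x, y)` ANY
polynomial of bounded degree over the field of `p ^ k` elements with a monomial which contains both variables (for example
`f = x y`), `A`, `B` ARBITRARY subsets of this field with at least `p ^ δ` elements, and `g`, `h` ARBITRARY functions. For all the pairs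
`(u, v)` in `A × B`, apart from a proportion of at most `p ^ (-ρ)`, `Good` holds for ALL `(d, a)` with all coordinates at a distance of at
most `p ^ κ` from the least residues of the `k` coordinates of `f(u, v) + g(u) + h(v)`. More generally, this holds for the values of
all vector functions of two variables with few coincidences (`RareV`), on arbitrary finite sets.

`Good`: the Zariski closures of the unions of the entire curves and of the images of the complex tori coincide for all the projective
varieties given by linear combinations of the monomials and of the `x_j ^ d`, with the combinatorial criterion of the starting file.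

Proof of (1): the tuples are good if certain determinants, which are affine in each of the `r` free exponents, are not small; the
number of the lattice points where such a function is small is bounded by induction on the number of the variables, with a power
saving (`Pool/Agent/U449/BV/PW.lean`, `GEN.lean`). Proof of (2): the sets and the functions `g` and `h` are arbitrary, and a vector may be taken
by very many pairs, so the number of the exceptions does not give the result directly; the inequality of Cauchy and Schwarz, and
for most pairs `u, u'` the difference of the values at `(u, v)` and `(u', v)` is small for few `v` (`Pool/Agent/U449/BV/V.lean`).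
-/

set_option autoImplicit false

namespace Pool.Agent.Results.MP_45e720_ag.MonomialsPowerSaving

open MvPolynomial Pool.Agent.W602.GT Pool.Agent.R869.Wd Pool.Agent.H159R3.GGLLog
open Pool.Agent.W603.CX (OrbitsConstant)
open Pool.Agent.Y190.PH (Brody)
open Pool.Agent.TH182.TC (TorusRigid EllipticRigid)
open Pool.Agent.Results.MP_45e720_ag.AlmostAllMonomials
open Pool.Agent.U449.BV (RareV OnProductsV coordinates PowerSaving NearTuples on_typI)

/-- The property of the starting result: `ToriSuffice` for all projective varieties `X` given by `m` linear combinations of the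
monomials `a i` and of the `x_j ^ d`, and if the coefficient vectors are in general position, then all entire curves in `X` lie in the
union of the coordinate subspaces given by the sets on which the `I i` are not well spread; for hypersurfaces, `LooseCriterion`. -/
def Good {n s : ℕ} (I : Fin s → Finset (Fin (n + 1))) (d : ℕ) (a : Fin s → (Fin (n + 1) →₀ ℕ)) : Prop :=
  (∀ (m : ℕ) (F : Fin m → MvPolynomial (Fin (n + 1)) ℂ),
    (∀ e, (F e).support ⊆ withPowers d a) → ToriSuffice F ∧
      (GenCoeffs F (withPowers d a) → ∀ x ∈ SpH ∅ F, ∃ J : Finset (Fin (n + 1)),
        ¬ Spread I m J ∧ ∀ j, x j ≠ 0 → j ∈ J)) ∧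
  ∀ F : MvPolynomial (Fin (n + 1)) ℂ, F.support ⊆ withPowers d a → LooseCriterion F

theorem good_of_typ {n s : ℕ} {I : Fin s → Finset (Fin (n + 1))} {d : ℕ} {a : Fin s → (Fin (n + 1) →₀ ℕ)}
    (hty : TypI I d a) : Good I d a := by
  classical
  obtain ⟨A, hA⟩ := hty.bound
  obtain ⟨s', N, hg⟩ := hty.good
  have hts : ∀ (m : ℕ) (F : Fin m → MvPolynomial (Fin (n + 1)) ℂ),
      (∀ e, (F e).support ⊆ withPowers d a) → ToriSuffice F := fun m F hFT =>
    toriSuffice_of (hg.sys hFT ∅) (hA ℂ m F ∅ hFT).1
  refine ⟨fun m F hFT => ⟨hts m F hFT, fun hgc x hx => ?_⟩, fun F hF => ⟨?_, fun J => ?_,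
    fun x hx => ?_⟩⟩
  · obtain ⟨J, h1, -, h2⟩ := hty.special hFT hgc hx
    exact ⟨J, h1, h2⟩
  · have h1 : TorusRigid (fun _ : Fin 1 => F) ↔ Brody (fun _ : Fin 1 => F) :=
      (hts 1 _ fun _ => hF).2.out 0 2
    rw [h1, ← Pool.Agent.R869.Wd.brody_iff, hty.spH_empty hF]
    exact ⟨fun h J => h J fun j hj => absurd hj (Set.notMem_empty j), fun h J _ => h J⟩
  · exact (hty.crit hF J).out 0 3
  · obtain ⟨J, h1, -, h2⟩ := hty.special1 hF hx
    exact ⟨J, h1, h2⟩

/-- **Theorem.** (1) For all nonempty sets `I i` of variables the property `Good` holds for all but at most `C d ^ (r - 2 ^ (-r))` of the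
tuples of monomials of degree `d`, the `i`-th one in the variables from `I i`, `r = ∑ (|I i| - 1)`. (2) If `r ≥ 1`, it holds for all
the tuples near almost all values of vector functions of two variables with few coincidences on arbitrary sets
(`OnProductsV`). The tuples of the least residues modulo `p` of the coordinates (with respect to a basis over the field of `p`
elements) of `f(a, b) + g(a) + h(b)` in a field of `p ^ k` elements are such a function, with `X = p`, for all polynomials `f` over
this field with a monomial which contains both variables, arbitrary functions `g` and `h`, and arbitrary finite subsets. -/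
theorem result :
    (∀ (n s : ℕ) (I : Fin s → Finset (Fin (n + 1))), (∀ i, (I i).Nonempty) → PowerSaving I (Good I) ∧
      (1 ≤ fdim I → ∀ piv : Fin s → Fin (n + 1), (∀ i, piv i ∈ I i) →
        ∀ (e : Option (Free I piv) ≃ Fin (fdim I + 1)) (κ : ℝ), 0 ≤ κ →
          OnProductsV (fdim I + 1) ((fdim I : ℝ) + 1 - (1 / 2) ^ fdim I + ((fdim I : ℝ) + 1) * κ) κ
            (NearTuples I piv e (Good I)))) ∧
    ∀ (p : ℕ) [Fact p.Prime] (k : ℕ) (K : Type) [Field K] [Algebra (ZMod p) K] (e : Module.Basis (Fin k) (ZMod p) K)
      (d : ℕ) (f : MvPolynomial (Fin 2) K), f.totalDegree ≤ d → (∃ m ∈ f.support, m 0 ≠ 0 ∧ m 1 ≠ 0) →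
      ∀ (g h : K → K) (A B : Finset K),
        RareV d A B (fun a b i => (((e.repr (MvPolynomial.eval ![a, b] f + g a + h b) i).val : ℕ) : ℝ)) :=
  ⟨fun _ _ _ hI => on_typI hI fun _ _ h => good_of_typ h, coordinates⟩

end Pool.Agent.Results.MP_45e720_ag.MonomialsPowerSaving
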