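import Pool.Agent.U207.QC.Tor
import Pool.Agent.U207.QC.Tpl

/-!
# Maps from complex tori and entire curves: intersections of quadrics suffice

(1) Let `X = V(S)` be any projective variety in `P^n`, `n ≥ 1` (any dimension and any singularities),
given by forms of degree at most `d`, `d ≥ 3`, and `v : P^n → P^N` the Veronese embedding of degree `d`.
For all `c ≥ (2 (N + 1)^3 + 6 N + 5)^2` there are quadratic forms `P_i` and linear forms `ℓ_i`, `i < c`,
such that the covering of `P^N` with group `(ℤ/2)^c`

`Y : x_i^2 = P_i(h_0, …, h_N), i < c`, in `P^{N+c}`,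

is a smooth complete intersection of `c` quadrics, `P_i = ℓ_i^2` on `v(X)`, so that `Y` contains the
`2^c` copies `x_i = ± ℓ_i(h)`, `h ∈ v(X)`, of `X`, and every holomorphic map from a complex
normed space to `Y` (for example an entire curve, or the pull-back of a map from a complex torus)
is constant or factors through one of these copies. So all entire curves in `Y` are constant if and
only if all entire curves in `X` are, and the same holds for the maps from all complex tori.

(2) Let `E N` be infinite sets of numbers. Q1 (if all maps from complex tori to `X` are constant, then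
all entire curves in `X` are constant) for all closed subsets `X` of projective spaces (smooth or not) is
equivalent to Q1 for these smooth `Y` with `c ∈ E N`. So Q1 for all projective manifolds is equivalent to
both statements. The same holds for the strong form of Q1: the Zariski closure of the union of all
nonconstant entire curves is that of the union of all nonconstant images of complex tori.

Proof. See `Pool/Agent/U207/QC`. `v(X)` is given by quadratic forms whose Jacobian matrix has large rank,
`P_i = (∑_j a_i^j h_j)^2 + ∑_t a_i^{B + κ t} Q_t(h)`, where the `Q_t` are generic combinations of these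
forms and the `a_i` are generic numbers. `P_i(h)` is the value at the node `a_i` of a polynomial in one
variable with coefficients depending on `h`. Along an entire curve the method of Büchi's problem (Vojta,
Pasten) shows that this polynomial is a square up to a factor, and then an argument with the
derivative shows that the curve is constant or all `Q_t(h)` are zero. A map from a normed
space is restricted to lines; the signs of the `x_i` are constant, and the map is lifted from `v(X)` to
the cone over `X`.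
-/

set_option autoImplicit false

namespace Pool.Agent.Results.MP_45e720_ag.QuadricCoversSuffice

open MvPolynomial
open Pool.Agent.N254.SQ (IsForm OnCurves Monomials veronese)
open Pool.Agent.U207.QC (hI coverForm coverEqs SmoothCover Signs onSheet)

section

variable {n : ℕ} (S : Set (MvPolynomial (Fin (n + 1)) ℂ))

/-- all holomorphic maps from complex tori to `V(S)` are constant -/
def TorusConst : Prop :=
  ∀ (g : ℕ) (L : AddSubgroup (Fin g → ℂ)), DiscreteTopology L ∧ Submodule.span ℝ (L : Set (Fin g → ℂ)) = ⊤ → ∀ F : (Fin g → ℂ) → (Fin (n + 1) → ℂ),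
    Differentiable ℂ F → (∀ z, F z ≠ 0) → (∀ z, ∀ p ∈ S, eval (F z) p = 0) →
      (∀ z, ∀ l ∈ L, ∃ c : ℂ, F (z + l) = c • F z) → ∀ z w, ∃ c : ℂ, F w = c • F z

/-- all entire curves in `V(S)` are constant -/
def CurveConst : Prop :=
  ∀ f : ℂ → Fin (n + 1) → ℂ, Differentiable ℂ f → (∀ z, f z ≠ 0) →
    (∀ z, ∀ p ∈ S, eval (f z) p = 0) → ∀ z w, ∃ c : ℂ, f w = c • f z

/-- `G` vanishes on all nonconstant images of complex tori in `V(S)` -/
def OnImages (G : MvPolynomial (Fin (n + 1)) ℂ) : Prop :=
  ∀ (g : ℕ) (L : AddSubgroup (Fin g → ℂ)), DiscreteTopology L ∧ Submodule.span ℝ (L : Set (Fin g → ℂ)) = ⊤ → ∀ F : (Fin g → ℂ) → (Fin (n + 1) → ℂ),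
    Differentiable ℂ F → (∀ z, F z ≠ 0) → (∀ z, ∀ p ∈ S, eval (F z) p = 0) →
      (∀ z, ∀ l ∈ L, ∃ c : ℂ, F (z + l) = c • F z) →
        (∀ z w, ∃ c : ℂ, F w = c • F z) ∨ ∀ z, eval (F z) G = 0

/-- the strong form of Q1 for `V(S)` -/
def SameSets : Prop := ∀ G, IsForm G → (OnImages S G ↔ OnCurves S G)

end

section proof

open Pool.Agent.U207.QC (OnTor TorusLattice)

variable {n : ℕ} {S : Set (MvPolynomial (Fin (n + 1)) ℂ)}

theorem torus_one : OnTor TorusLattice S 1 ↔ TorusConst S := by
  constructor
  · intro h g L hL F h1 h2 h3 h4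
    rcases h g L hL F h1 h2 h3 h4 with h5 | h5
    · exact h5
    · exact absurd (h5 0) (by rw [map_one]; exact one_ne_zero)
  · intro h g L hL F h1 h2 h3 h4
    exact Or.inl (h g L hL F h1 h2 h3 h4)

theorem curve_one : OnCurves S 1 ↔ CurveConst S := by
  constructor
  · intro h f h1 h2 h3
    rcases h f h1 h2 h3 with h5 | h5
    · exact h5
    · exact absurd (h5 0) (by rw [map_one]; exact one_ne_zero)
  · intro h f h1 h2 h3
    exact Or.inl (h f h1 h2 h3)

end proof

open Pool.Agent.U207.QC in
theorem result :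
    (∀ n d : ℕ, 1 ≤ n → 3 ≤ d → ∃ (N : ℕ) (m : Fin (N + 1) → Fin (n + 1) → ℕ),
      Monomials n N d m ∧ ∀ c, (2 * (N + 1) ^ 3 + 6 * N + 5) ^ 2 ≤ c →
        ∀ S : Set (MvPolynomial (Fin (n + 1)) ℂ), (∀ p ∈ S, ∃ e ≤ d, p.IsHomogeneous e) →
        ∃ P ℓ : Fin c → MvPolynomial (Fin (N + 1)) ℂ,
          (∀ i, (P i).IsHomogeneous 2) ∧ (∀ i, (ℓ i).IsHomogeneous 1) ∧ SmoothCover P ∧
          (∀ x : Fin (n + 1) → ℂ, (∀ p ∈ S, eval x p = 0) →
            ∀ i, eval (veronese m x) (P i) = eval (veronese m x) (ℓ i) ^ 2) ∧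
          (∀ (E : Type) [NormedAddCommGroup E] [NormedSpace ℂ E] (f : E → Fin (N + c + 1) → ℂ),
            Differentiable ℂ f → (∀ z, f z ≠ 0) → (∀ z i, eval (f z) (coverForm P i) = 0) →
            (∀ z w, ∃ s : ℂ, f w = s • f z) ∨
              ∃ (ℓ' : Fin c → MvPolynomial (Fin (N + 1)) ℂ) (F : E → Fin (n + 1) → ℂ),
                Signs ℓ ℓ' ∧ Differentiable ℂ F ∧ (∀ z, F z ≠ 0) ∧
                (∀ z, ∀ p ∈ S, eval (F z) p = 0) ∧ ∀ z, f z ∘ hI N c = veronese m (F z) ∧
                  ∀ i, f z (xI N c i) = eval (veronese m (F z)) (ℓ' i)) ∧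
          (TorusConst (coverEqs P) ↔ TorusConst S) ∧ (CurveConst (coverEqs P) ↔ CurveConst S)) ∧
    ∀ E : ℕ → Set ℕ, (∀ N, (E N).Infinite) →
      ((∀ (n : ℕ) (S : Set (MvPolynomial (Fin (n + 1)) ℂ)), (∀ p ∈ S, IsForm p) →
          TorusConst S → CurveConst S) ↔
        ∀ (N c : ℕ) (P : Fin c → MvPolynomial (Fin (N + 1)) ℂ), c ∈ E N →
          (∀ i, (P i).IsHomogeneous 2) → SmoothCover P →
          TorusConst (coverEqs P) → CurveConst (coverEqs P)) ∧
      ((∀ (n : ℕ) (S : Set (MvPolynomial (Fin (n + 1)) ℂ)), (∀ p ∈ S, IsForm p) → SameSets S) ↔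
        ∀ (N c : ℕ) (P : Fin c → MvPolynomial (Fin (N + 1)) ℂ), c ∈ E N →
          (∀ i, (P i).IsHomogeneous 2) → SmoothCover P → SameSets (coverEqs P)) := by
  have hI' := cl1_tor TorusLattice
  have hJ : Cl1 (fun _ S G => OnCurves S G) := by
    have h1 := cl1_of (exc0_of Pool.Agent.N254.SQ.t_qcurv) covT_curves
    simp only [curves_one] at h1
    exact h1
  refine ⟨?_, fun E hE => ⟨?_, two_iff hI' hJ hE⟩⟩
  · intro n d hn hd
    obtain ⟨N, m, hm, -, h⟩ := cons n d hn hd
    refine ⟨N, m, ⟨hm.deg, hm.inj, hm.surj⟩, fun c hc S hS => ?_⟩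
    obtain ⟨P, ℓ, hsm, hg⟩ := h c hc S hS
    refine ⟨P, ℓ, hg.homP, hg.homL, hsm, fun x hx i => hg.sub ℂ x hx i, ?_, ?_, ?_⟩
    · intro E _ _ f hf hf0 hfP
      rcases factors hg E f hf hf0 hfP with h1 | ⟨ℓ', F, h1, h2, h3, h4, h5⟩
      · exact Or.inl h1
      · refine Or.inr ⟨ℓ', F, h1, h2, h3, h4, fun z => ⟨?_, fun i => ?_⟩⟩
        · rw [h5 z, el_hI]
          rfl
        · rw [h5 z, el_x]
          rfl
    · rw [← torus_one, ← torus_one]
      exact hI'.one hg
    · rw [← curve_one, ← curve_one]
      exact hJ.one hg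
  · have h1 := imp_one hI' hJ hE
    simp only [torus_one, curve_one] at h1
    exact h1

end Pool.Agent.Results.MP_45e720_ag.QuadricCoversSuffice
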